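import Pool.Agent.H97.App

open Set Filter Topology Pool.Agent.H97.App

namespace Pool.Agent.Results.MP_e13f12_an.No

theorem result (X : Type*) [AddCommGroup X] [Module ℝ X] [TopologicalSpace X]
    [IsTopologicalAddGroup X] [ContinuousSMul ℝ X] [LocallyConvexSpace ℝ X] [T2Space X]
    [Nontrivial X] (T : X →L[ℝ] X) :
    ¬ ∃ x : X, ∀ a b : ℝ, 0 < a → Dense (range fun n : ℕ => (fun y => a • T y + b • y)^[n] x) := by
  rintro ⟨x, H⟩
  obtain ⟨w, hw⟩ := exists_ne (0 : X)
  obtain ⟨φ, hφ⟩ := SeparatingDual.exists_ne_zero (R := ℝ) hw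
  obtain ⟨v, v0, v1, v2⟩ : ∃ v, φ v = 1 ∧ φ (T v) = 0 ∧ φ (T (T v)) = 1 := by
    by_contra! hc
    obtain ⟨l, l0, hl⟩ := Submodule.exists_le_ker_of_lt_top (LinearMap.range
      ((φ.prod ((φ.comp T).prod ((φ.comp T).comp T))) : X →ₗ[ℝ] ℝ × ℝ × ℝ)) (lt_top_iff_ne_top.2
      fun h => by
        obtain ⟨v, hv⟩ := h.ge (Submodule.mem_top (x := (1, 0, 1)))
        simp only [ContinuousLinearMap.coe_coe, ContinuousLinearMap.prod_apply, Prod.mk.injEq] at hv
        exact hc v hv.1 hv.2.1 hv.2.2)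
    have e : ∀ p q r : ℝ, l (p, q, r) = p * l (1, 0, 0) + q * l (0, 1, 0) + r * l (0, 0, 1) :=
      fun p q r => by simp only [← smul_eq_mul, ← map_smul, ← map_add]; simp
    have h : ∀ v, φ v * l (1, 0, 0) + φ (T v) * l (0, 1, 0) + φ (T (T v)) * l (0, 0, 1) = 0 :=
      fun v => (e _ _ _).symm.trans (hl ⟨v, rfl⟩)
    obtain ⟨α, β, h1⟩ : ∃ α β : ℝ, ∀ v, φ (T (T v)) = α * φ v + β * φ (T v) := by
      by_cases h2 : l (0, 0, 1) = 0
      · by_cases h3 : l (0, 1, 0) = 0
        · refine (l0 (LinearMap.ext fun ⟨p, q, r⟩ => ?_)).elim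
          have := h w
          simp only [h2, h3, mul_zero, add_zero, mul_eq_zero, hφ, false_or] at this
          rw [e]; simp [h2, h3, this]
        · refine ⟨0, -l (1, 0, 0) / l (0, 1, 0), fun v => ?_⟩
          have := h (T v)
          rw [h2] at this
          field_simp; linarith
      · refine ⟨-l (1, 0, 0) / l (0, 0, 1), -l (0, 1, 0) / l (0, 0, 1), fun v => ?_⟩
        have := h v
        field_simp; linarith
    set a := (1 + |α| + |β|)⁻¹
    have a0 : 0 < a := by positivity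
    have a1 : a * (1 + |α| + |β|) = 1 := inv_mul_cancel₀ (by positivity)
    set u := fun n : ℕ => (fun y => a • T y + (0 : ℝ) • y)^[n] x
    have hu : ∀ n, u (n + 1) = a • T (u n) := fun n => by
      simp only [u, Function.iterate_succ_apply', zero_smul, add_zero]
    have hb : ∀ n, |φ (u n)| ≤ |φ (u 0)| + |φ (u 1)| := fun n => by
      induction n using Nat.twoStepInduction with
      | zero => exact le_add_of_nonneg_right (abs_nonneg _)
      | one => exact le_add_of_nonneg_left (abs_nonneg _)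
      | more n i1 i2 =>
        have : φ (u (n + 2)) = a * (a * α * φ (u n) + β * φ (u (n + 1))) := by
          simp only [hu, map_smul, smul_eq_mul, h1]; ring
        rw [this, abs_mul, abs_of_pos a0]
        refine (mul_le_mul_of_nonneg_left (abs_add_le _ _) a0.le).trans ?_
        rw [abs_mul, abs_mul, abs_mul, abs_of_pos a0]
        have a2 : a ≤ 1 := by nlinarith [abs_nonneg α, abs_nonneg β]
        calc _ ≤ a * (1 * |α| * (|φ (u 0)| + |φ (u 1)|) + |β| * (|φ (u 0)| + |φ (u 1)|)) := by gcongr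
          _ ≤ _ := by nlinarith [mul_nonneg a0.le (add_nonneg (abs_nonneg (φ (u 0)))
            (abs_nonneg (φ (u 1))))]
    have := closure_minimal (range_subset_iff.2 hb) (isClosed_le (f := fun y => |φ y|)
      (by fun_prop) continuous_const) (H a 0 a0 (((|φ (u 0)| + |φ (u 1)| + 1) / φ w) • w))
    simp only [mem_ofPred_eq, map_smul, smul_eq_mul, div_mul_cancel₀ _ hφ] at this
    linarith [le_abs_self (|φ (u 0)| + |φ (u 1)| + 1)]
  set R : X × ℝ → X → X := fun p y => T y + p.2 • y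
  have hev : ∀ᶠ p in 𝓝 (v, (0 : ℝ)), Gd (φ p.1) (φ (R p p.1)) (φ (R p (R p p.1))) (φ (T p.1))
      (φ (T (R p p.1))) (φ (T (R p (R p p.1)))) ∧ φ p.1 ≠ 0 ∧ |Real.log (φ p.1)| < 1 := by
    have h1 : φ (T (R (v, 0) v)) ≠ 0 := by simp [R, v2]
    have h2 : φ (T (R (v, 0) v)) ^ 2 ≠ 0 := pow_ne_zero _ h1
    have h3 : φ v ≠ 0 := by simp [v0]
    refine Eventually.and (Eventually.and (ContinuousAt.eventually_ne ?_ h1) (Eventually.and
      ((ContinuousAt.eventually_lt ?_ continuousAt_const ?_).mono fun _ => le_of_lt)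
      (Eventually.and ((continuousAt_const.eventually_lt ?_ ?_).mono fun _ => le_of_lt)
      (continuousAt_const.eventually_lt ?_ ?_)))) (Eventually.and (ContinuousAt.eventually_ne ?_ h3)
      (ContinuousAt.eventually_lt ?_ continuousAt_const ?_))
    all_goals first
      | fun_prop (disch := assumption)
      | norm_num [R, v0, v1, v2]
  obtain ⟨U, hU, I, hI, hUI⟩ := mem_nhds_prod_iff.1 hev
  obtain ⟨τ, hτ, hτI⟩ := Metric.mem_nhds_iff.1 hI
  obtain ⟨t, ht, s, N, hN⟩ := avoid (A := fun n => q (T : X →ₗ[ℝ] X) φ n x)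
    (B := fun n => q (T : X →ₗ[ℝ] X) (φ.comp T) n x) rfl rfl (fun n => q_der _ _ n x)
    (fun n => q_der _ _ n x) hτ
  have : ∀ y : X, (𝓝[≠] y).NeBot := fun y => Module.punctured_nhds_neBot ℝ X y
  set u := fun n : ℕ => (fun y => Real.exp s • T y + (Real.exp s * t) • y)^[n] x
  obtain ⟨_, hy, ⟨n, rfl⟩, hy2⟩ := ((H _ (Real.exp s * t) (Real.exp_pos s)).sdiff_finite
    ((finite_lt_nat N).image u)).inter_nhds_nonempty hU |>.imp fun _ => And.symm
  have hu : ∀ n, u n = Real.exp s ^ n • (((T : X →ₗ[ℝ] X) + t • 1) ^ n) x := fun n => by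
    induction n with
    | zero => simp [u]
    | succ n ih =>
      simp only [u] at ih ⊢
      rw [Function.iterate_succ_apply', ih, pow_succ', pow_succ']
      simp [smul_smul, mul_right_comm]
  obtain ⟨h1, h2, h3⟩ := hUI (a := (u n, t)) ⟨hy, hτI (by simpa [abs_lt] using ht)⟩
  have h4 := hN n (not_lt.1 fun h => hy2 ⟨n, h, rfl⟩) (Gd.mul (c := Real.exp s ^ n) (by positivity)
    (by convert h1 using 1 <;> simp [R, hu, q_eval, pow_succ', mul_add, mul_left_comm]))
  rw [hu, map_smul, smul_eq_mul] at h2 h3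
  rw [Real.log_mul (by positivity) (right_ne_zero_of_mul h2), Real.log_pow, Real.log_exp] at h3
  rw [q_eval] at h4
  exact h3.not_ge h4

end Pool.Agent.Results.MP_e13f12_an.No
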